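import Pool.Agent.N262.FX.EnA

/-!
# Energy identity: calculus in time
-/

open MeasureTheory Set Filter Topology
open scoped ContDiff NNReal ENNReal
open H459R3.NS Pool.Agent.GR.Flow Pool.Agent.TH811.SPD Pool.Agent.N262.FX

namespace Pool.Agent.N547.FX

theorem ac_mul {a t : ℝ} {F G : ℝ → ℝ}
    (hF : IntervalIntegrable F volume a t) (hG : IntervalIntegrable G volume a t) :
    (∫ x in a..t, F x) * (∫ x in a..t, G x) =
      ∫ s in a..t, (F s * (∫ x in a..s, G x) + (∫ x in a..s, F x) * G s) := by
  have h1 : AbsolutelyContinuousOnInterval (fun s => ∫ x in a..s, F x) a t :=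
    hF.absolutelyContinuousOnInterval_intervalIntegral (by simp)
  have h2 : AbsolutelyContinuousOnInterval (fun s => ∫ x in a..s, G x) a t :=
    hG.absolutelyContinuousOnInterval_intervalIntegral (by simp)
  have h3 := h1.integral_deriv_mul_eq_sub h2
  simp only [intervalIntegral.integral_same, mul_zero, sub_zero] at h3
  rw [← h3]
  apply intervalIntegral.integral_congr_ae
  filter_upwards [hF.ae_hasDerivAt_integral, hG.ae_hasDerivAt_integral] with x hx1 hx2 hx
  have hx' : x ∈ uIcc a t := uIoc_subset_uIcc hx
  rw [(hx1 hx' a (by simp)).deriv, (hx2 hx' a (by simp)).deriv]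

theorem prod_rule {a t : ℝ} (hat : a ≤ t) {f g F G : ℝ → ℝ}
    (hF : IntervalIntegrable F volume a t) (hG : IntervalIntegrable G volume a t)
    (hf : ∀ s ∈ Icc a t, f s = f a + ∫ x in a..s, F x)
    (hg : ∀ s ∈ Icc a t, g s = g a + ∫ x in a..s, G x) :
    IntervalIntegrable (fun s => F s * g s + f s * G s) volume a t ∧
    f t * g t - f a * g a = ∫ s in a..t, (F s * g s + f s * G s) := by
  have hsub : ∀ {H : ℝ → ℝ}, IntervalIntegrable H volume a t →
      ContinuousOn (fun s => ∫ x in a..s, H x) (uIcc a t) := fun hH =>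
    (hH.absolutelyContinuousOnInterval_intervalIntegral (by simp)).continuousOn
  have cf : ContinuousOn f (uIcc a t) := by
    refine ((continuousOn_const (c := f a)).add (hsub hF)).congr fun s hs => ?_
    rw [uIcc_of_le hat] at hs
    exact hf s hs
  have cg : ContinuousOn g (uIcc a t) := by
    refine ((continuousOn_const (c := g a)).add (hsub hG)).congr fun s hs => ?_
    rw [uIcc_of_le hat] at hs
    exact hg s hs
  have hFg : IntervalIntegrable (fun s => F s * g s) volume a t := hF.mul_continuousOn cg
  have hfG : IntervalIntegrable (fun s => f s * G s) volume a t := hG.continuousOn_mul cf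
  refine ⟨hFg.add hfG, ?_⟩
  have ht : t ∈ Icc a t := ⟨hat, le_rfl⟩
  have e1 : ∫ s in a..t, (F s * g s + f s * G s) = ∫ s in a..t,
      ((g a * F s + f a * G s) + (F s * (∫ x in a..s, G x) + (∫ x in a..s, F x) * G s)) := by
    apply intervalIntegral.integral_congr
    intro s hs
    rw [uIcc_of_le hat] at hs
    show F s * g s + f s * G s = _
    rw [hf s hs, hg s hs]
    ring
  have i1 : IntervalIntegrable (fun s => F s * ∫ x in a..s, G x) volume a t :=
    hF.mul_continuousOn (hsub hG)
  have i2 : IntervalIntegrable (fun s => (∫ x in a..s, F x) * G s) volume a t :=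
    hG.continuousOn_mul (hsub hF)
  rw [e1, intervalIntegral.integral_add ((hF.const_mul _).add (hG.const_mul _)) (i1.add i2),
    ← ac_mul hF hG, intervalIntegral.integral_add (hF.const_mul _) (hG.const_mul _),
    intervalIntegral.integral_const_mul, intervalIntegral.integral_const_mul, hf t ht, hg t ht]
  ring

theorem volume_prod_restrict (A : Set ℝ) :
    (volume.restrict (A ×ˢ cube) : Measure (ℝ × V))
      = (volume.restrict A).prod (volume.restrict cube) := by
  rw [Measure.volume_eq_prod, Measure.prod_restrict]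

theorem isCompact_cube : IsCompact (cube : Set V) := isCompact_Icc

theorem energy_abs {ι : Type*} (S : Finset ι) {a t : ℝ} (hat : a ≤ t) {A R : ι → ℝ → ℝ}
    {W W' : ι → ℝ → V → ℝ} (hR : ∀ I ∈ S, IntervalIntegrable (R I) volume a t)
    (hA : ∀ I ∈ S, ∀ s ∈ Icc a t, A I s = A I a + ∫ x in a..s, R I x)
    (hW : ∀ I ∈ S, Continuous fun z : ℝ × V => W I z.1 z.2)
    (hW' : ∀ I ∈ S, Continuous fun z : ℝ × V => W' I z.1 z.2)
    (hd : ∀ I ∈ S, ∀ s x, HasDerivAt (fun s => W I s x) (W' I s x) s) :
    IntervalIntegrable (fun s => ∫ x in cube, 2 * (∑ I ∈ S, A I s * W I s x) *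
        ∑ I ∈ S, (R I s * W I s x + A I s * W' I s x)) volume a t ∧
    (∫ x in cube, (∑ I ∈ S, A I t * W I t x) ^ 2) - (∫ x in cube, (∑ I ∈ S, A I a * W I a x) ^ 2)
      = ∫ s in a..t, ∫ x in cube, 2 * (∑ I ∈ S, A I s * W I s x) *
        ∑ I ∈ S, (R I s * W I s x + A I s * W' I s x) := by
  classical
  set b : ℝ → V → ℝ := fun s x => ∑ I ∈ S, A I s * W I s x with hb
  set d : ℝ → V → ℝ := fun s x => ∑ I ∈ S, (R I s * W I s x + A I s * W' I s x) with hdd
  have hWi : ∀ I ∈ S, ∀ x, IntervalIntegrable (fun s => W' I s x) volume a t := fun I hI x =>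
    ((hW' I hI).comp (continuous_id.prodMk continuous_const)).intervalIntegrable _ _
  have hWe : ∀ I ∈ S, ∀ x, ∀ s ∈ Icc a t, W I s x = W I a x + ∫ r in a..s, W' I r x := by
    intro I hI x s hs
    rw [intervalIntegral.integral_eq_sub_of_hasDerivAt (fun r _ => hd I hI r x)
      (((hW' I hI).comp (continuous_id.prodMk continuous_const)).intervalIntegrable _ _)]
    ring
  -- the representation of `b`
  have key : ∀ x, ∀ s ∈ Icc a t, IntervalIntegrable (fun r => d r x) volume a s ∧
      b s x = b a x + ∫ r in a..s, d r x := by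
    intro x s hs
    have hsub : uIcc a s ⊆ uIcc a t := by
      rw [uIcc_of_le hs.1, uIcc_of_le hat]; exact Icc_subset_Icc le_rfl hs.2
    have hI1 : ∀ I ∈ S, IntervalIntegrable (fun r => R I r * W I r x + A I r * W' I r x)
        volume a s ∧ A I s * W I s x - A I a * W I a x =
          ∫ r in a..s, (R I r * W I r x + A I r * W' I r x) := fun I hI =>
      prod_rule hs.1 ((hR I hI).mono_set hsub) ((hWi I hI x).mono_set hsub)
        (fun r hr => hA I hI r ⟨hr.1, hr.2.trans hs.2⟩)
        (fun r hr => hWe I hI x r ⟨hr.1, hr.2.trans hs.2⟩)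
    refine ⟨?_, ?_⟩
    · have := IntervalIntegrable.sum S fun I hI => (hI1 I hI).1
      exact this.congr fun r _ => by simp [hdd, Finset.sum_apply]
    · have h2 : ∫ r in a..s, d r x = ∑ I ∈ S, ∫ r in a..s, (R I r * W I r x + A I r * W' I r x) :=
        intervalIntegral.integral_finsetSum fun I hI => (hI1 I hI).1
      rw [h2, ← Finset.sum_congr rfl fun I hI => (hI1 I hI).2, Finset.sum_sub_distrib]
      simp only [hb]
      ring
  have key2 : ∀ x, b t x ^ 2 - b a x ^ 2 = ∫ s in a..t, 2 * b s x * d s x := by
    intro x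
    have hi := (key x t ⟨hat, le_rfl⟩).1
    have h := (prod_rule hat hi hi (fun s hs => (key x s hs).2) (fun s hs => (key x s hs).2)).2
    rw [sq, sq, h]
    apply intervalIntegral.integral_congr
    intro s _
    show d s x * b s x + b s x * d s x = _
    ring
  -- joint integrability
  have cA : ∀ I ∈ S, ContinuousOn (fun z : ℝ × V => A I z.1) (Icc a t ×ˢ cube) := by
    intro I hI
    have h1 : ContinuousOn (A I) (Icc a t) := by
      have h2 : ContinuousOn (fun s => ∫ x in a..s, R I x) (uIcc a t) :=
        ((hR I hI).absolutelyContinuousOnInterval_intervalIntegral (by simp)).continuousOn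
      rw [uIcc_of_le hat] at h2
      exact ((continuousOn_const (c := A I a)).add h2).congr fun s hs => hA I hI s hs
    exact h1.comp continuousOn_fst fun z hz => hz.1
  have cb : ContinuousOn (fun z : ℝ × V => b z.1 z.2) (Icc a t ×ˢ cube) :=
    continuousOn_finsetSum _ fun I hI => (cA I hI).mul (hW I hI).continuousOn
  have hK : IsCompact (Icc a t ×ˢ (cube : Set V)) := isCompact_Icc.prod isCompact_cube
  have hRK : ∀ I ∈ S, IntegrableOn (fun z : ℝ × V => R I z.1) (Icc a t ×ˢ cube) := by
    intro I hI
    unfold IntegrableOn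
    rw [volume_prod_restrict]
    have h1 : Integrable (R I) (volume.restrict (Icc a t)) := by
      have := (intervalIntegrable_iff_integrableOn_Icc_of_le hat).1 (hR I hI)
      exact this
    have := cube_finite
    exact h1.comp_fst _
  have hint : IntegrableOn (fun z : ℝ × V => 2 * b z.1 z.2 * d z.1 z.2) (Icc a t ×ˢ cube) := by
    have e : (fun z : ℝ × V => 2 * b z.1 z.2 * d z.1 z.2) = fun z : ℝ × V =>
        ∑ I ∈ S, ((2 * b z.1 z.2 * W I z.1 z.2) * R I z.1 +
          2 * b z.1 z.2 * (A I z.1 * W' I z.1 z.2)) := by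
      funext z
      simp only [hdd]
      rw [Finset.mul_sum]
      refine Finset.sum_congr rfl fun I _ => ?_
      ring
    rw [e]
    refine integrable_finsetSum _ fun I hI => Integrable.add ?_ ?_
    · exact IntegrableOn.continuousOn_mul
        ((continuousOn_const.mul cb).mul (hW I hI).continuousOn) (hRK I hI) hK
    · exact (((continuousOn_const.mul cb).mul
        ((cA I hI).mul (hW' I hI).continuousOn)).integrableOn_compact hK)
  have hint2 : Integrable (fun z : ℝ × V => 2 * b z.1 z.2 * d z.1 z.2)
      ((volume.restrict (Icc a t)).prod (volume.restrict cube)) := by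
    rw [← volume_prod_restrict]; exact hint
  have := cube_finite
  have hii : IntervalIntegrable (fun s => ∫ x in cube, 2 * b s x * d s x) volume a t :=
    (intervalIntegrable_iff_integrableOn_Icc_of_le hat).2 hint2.integral_prod_left
  refine ⟨hii, ?_⟩
  have ib : ∀ s ∈ Icc a t, Integrable (fun x => b s x ^ 2) (volume.restrict cube) := by
    intro s hs
    have : Continuous fun x => b s x :=
      continuous_finsetSum _ fun I hI => continuous_const.mul
        ((hW I hI).comp (continuous_const.prodMk continuous_id))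
    exact integrableOn_cube (this.pow 2)
  rw [← integral_sub (ib t ⟨hat, le_rfl⟩) (ib a ⟨le_rfl, hat⟩)]
  simp_rw [key2]
  rw [intervalIntegral.integral_of_le hat, ← integral_Icc_eq_integral_Ioc]
  simp_rw [intervalIntegral.integral_of_le hat, ← integral_Icc_eq_integral_Ioc]
  exact (integral_integral_swap (f := fun s x => 2 * b s x * d s x) hint2).symm

end Pool.Agent.N547.FX
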