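import Pool.Agent.N547.FX.EnB1

/-!
# Energy identity: the differential inequality and Gronwall
-/

open MeasureTheory Set Filter Topology
open scoped ContDiff NNReal ENNReal
open H459R3.NS Pool.Agent.GR.Flow Pool.Agent.TH811.SPD Pool.Agent.N547.FX

namespace Pool.Agent.N262.FX

theorem gronwall_int {E h : ℝ → ℝ} {a κ : ℝ} (hi : IntervalIntegrable h volume a (a + 1))
    (hE : ∀ t ∈ Icc a (a + 1), E t = E a + ∫ s in a..t, h s)
    (hle : ∀ᵐ s, s ∈ Ioo a (a + 1) → h s ≤ κ * E s) :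
    E (a + 1) ≤ Real.exp κ * E a := by
  have hab : a ≤ a + 1 := by linarith
  set g : ℝ → ℝ := fun s => Real.exp (-κ * (s - a)) with hg
  have hgd : ∀ s, HasDerivAt g (-κ * g s) s := by
    intro s
    have h1 : HasDerivAt (fun s : ℝ => -κ * (s - a)) (-κ) s := by
      simpa using ((hasDerivAt_id s).sub_const a).const_mul (-κ)
    have := h1.exp
    rw [mul_comm] at this
    exact this
  have hgc : Continuous g := by fun_prop
  have hgi : IntervalIntegrable (fun s => -κ * g s) volume a (a + 1) :=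
    (continuous_const.mul hgc).intervalIntegrable _ _
  have h1 := (prod_rule hab hi hgi hE (fun s _ => by
    rw [intervalIntegral.integral_eq_sub_of_hasDerivAt (fun r _ => hgd r)
      ((continuous_const.mul hgc).intervalIntegrable _ _)]
    ring)).2
  have h2 : ∫ s in a..(a + 1), (h s * g s + E s * (-κ * g s)) ≤ 0 := by
    rw [intervalIntegral.integral_of_le hab, integral_Ioc_eq_integral_Ioo]
    apply integral_nonpos_of_ae
    rw [EventuallyLE, ae_restrict_iff' measurableSet_Ioo]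
    filter_upwards [hle] with s hs hmem
    have h3 := hs hmem
    have h4 : 0 < g s := Real.exp_pos _
    show h s * g s + E s * (-κ * g s) ≤ 0
    nlinarith
  have h3 : g a = 1 := by simp [hg]
  have h4 : g (a + 1) = Real.exp (-κ) := by simp [hg]
  rw [h3, h4] at h1
  have h5 : E (a + 1) * Real.exp (-κ) ≤ E a := by linarith
  have h6 : E (a + 1) = Real.exp κ * (E (a + 1) * Real.exp (-κ)) := by
    rw [mul_comm (E (a + 1)), ← mul_assoc, ← Real.exp_add]
    simp
  rw [h6]
  exact mul_le_mul_of_nonneg_left h5 (Real.exp_pos _).le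

section pointwise

theorem abs_cross_le {v B : V} {ε r : ℝ} (hv : ∀ i, |v i| ≤ ε) (hr : ∑ i, |B i| ≤ r) (k : Fin 3) :
    |(crossProduct v B) k| ≤ ε * r := by
  have hε : 0 ≤ ε := (abs_nonneg _).trans (hv 0)
  have h : ∀ i j : Fin 3, i ≠ j → |v i * B j - v j * B i| ≤ ε * r := by
    intro i j hij
    have h1 : |v i * B j| ≤ ε * |B j| := by
      rw [abs_mul]; exact mul_le_mul_of_nonneg_right (hv i) (abs_nonneg _)
    have h2 : |v j * B i| ≤ ε * |B i| := by
      rw [abs_mul]; exact mul_le_mul_of_nonneg_right (hv j) (abs_nonneg _)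
    have h3 : |B i| + |B j| ≤ ∑ i, |B i| := by
      rw [← Finset.sum_pair (f := fun i => |B i|) hij]
      exact Finset.sum_le_sum_of_subset_of_nonneg (Finset.subset_univ _)
        fun _ _ _ => abs_nonneg _
    calc |v i * B j - v j * B i| ≤ |v i * B j| + |v j * B i| := abs_sub _ _
      _ ≤ ε * (|B i| + |B j|) := by linarith
      _ ≤ ε * r := mul_le_mul_of_nonneg_left (h3.trans hr) hε
  rw [cross_apply]
  fin_cases k
  · exact h 1 2 (by decide)
  · exact h 2 0 (by decide)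
  · exact h 0 1 (by decide)

theorem abs_cross_le' {v B : V} {ε r : ℝ} (hB : ∀ i, |B i| ≤ ε) (hr : ∑ i, |v i| ≤ r)
    (k : Fin 3) : |(crossProduct v B) k| ≤ ε * r := by
  rw [← cross_anticomm, Pi.neg_apply, abs_neg]
  exact abs_cross_le hB hr k

theorem pt_ineq {K g ε : ℝ} (hg : 0 < g) (hε : 0 ≤ ε) (v B : V)
    (Q : Fin 3 → Fin 3 → ℝ) (p1 : Fin 3 → V) (p2 : Fin 3 → Fin 3 → Fin 3 → ℝ)
    (hv : ∀ i, |v i| ≤ ε) (h1 : ∀ m i, |p1 m i| ≤ K) (h2 : ∀ m i j, |p2 m i j| ≤ K)
    (hn : ∀ b : V, g * ∑ i, b i ^ 2 ≤ ∑ m, (∑ i, b i * p1 m i) ^ 2) :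
    ∑ m, 2 * (dot (crossProduct v B)
        (crossProduct (fun j => ∑ i, (Q i j * p1 m i + B i * p2 m i j)) (p1 m))
      - ε * ∑ i, ∑ j, Q i j * ((∑ k, (Q k j * p1 m k + B k * p2 m k j)) * p1 m i
          + (∑ k, B k * p1 m k) * p2 m i j)) ≤
      (162 * K ^ 2 + 3038 * K ^ 4 / g) * ε * ∑ i, B i ^ 2 := by
  have hK : 0 ≤ K := (abs_nonneg _).trans (h1 0 0)
  obtain ⟨r, hr⟩ : ∃ r, r = ∑ i, |B i| := ⟨_, rfl⟩
  obtain ⟨s, hs⟩ : ∃ s, s = ∑ j, ∑ i, |Q i j| := ⟨_, rfl⟩
  have hr0 : 0 ≤ r := hr ▸ Finset.sum_nonneg fun _ _ => abs_nonneg _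
  have hs0 : 0 ≤ s := hs ▸ Finset.sum_nonneg fun _ _ => Finset.sum_nonneg fun _ _ => abs_nonneg _
  set q : Fin 3 → Fin 3 → ℝ := fun m j => ∑ i, Q i j * p1 m i with hq
  set c : Fin 3 → Fin 3 → ℝ := fun m j => ∑ i, B i * p2 m i j with hc
  have hqc : ∀ m j, ∑ i, (Q i j * p1 m i + B i * p2 m i j) = q m j + c m j := fun m j =>
    Finset.sum_add_distrib
  simp_rw [hqc]
  have hqs : ∀ m, ∑ j, |q m j| ≤ K * s := by
    intro m
    rw [hs, Finset.mul_sum]
    refine Finset.sum_le_sum fun j _ => ?_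
    rw [Finset.mul_sum]
    refine (Finset.abs_sum_le_sum_abs _ _).trans (Finset.sum_le_sum fun i _ => ?_)
    rw [abs_mul, mul_comm]
    exact mul_le_mul_of_nonneg_right (h1 m i) (abs_nonneg _)
  have hcs : ∀ m j, |c m j| ≤ K * r := by
    intro m j
    rw [hr, Finset.mul_sum]
    refine (Finset.abs_sum_le_sum_abs _ _).trans (Finset.sum_le_sum fun i _ => ?_)
    rw [abs_mul, mul_comm]
    exact mul_le_mul_of_nonneg_right (h2 m i j) (abs_nonneg _)
  have hbs : ∀ m, |∑ k, B k * p1 m k| ≤ K * r := by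
    intro m
    rw [hr, Finset.mul_sum]
    refine (Finset.abs_sum_le_sum_abs _ _).trans (Finset.sum_le_sum fun i _ => ?_)
    rw [abs_mul, mul_comm]
    exact mul_le_mul_of_nonneg_right (h1 m i) (abs_nonneg _)
  have hβ : ∀ m, ∑ j, |q m j + c m j| ≤ K * s + 3 * (K * r) := by
    intro m
    calc ∑ j, |q m j + c m j| ≤ ∑ j, (|q m j| + |c m j|) :=
          Finset.sum_le_sum fun j _ => abs_add_le _ _
      _ = ∑ j, |q m j| + ∑ j, |c m j| := Finset.sum_add_distrib
      _ ≤ K * s + ∑ _j : Fin 3, K * r :=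
          add_le_add (hqs m) (Finset.sum_le_sum fun j _ => hcs m j)
      _ = _ := by simp
  -- the cross product term
  have hd : ∀ m, dot (crossProduct v B) (crossProduct (fun j => q m j + c m j) (p1 m)) ≤
      3 * ((ε * r) * (K * (K * s + 3 * (K * r)))) := by
    intro m
    unfold dot
    calc ∑ i, (crossProduct v B) i * (crossProduct (fun j => q m j + c m j) (p1 m)) i
        ≤ ∑ _i : Fin 3, (ε * r) * (K * (K * s + 3 * (K * r))) := by
          refine Finset.sum_le_sum fun i _ => ?_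
          refine (le_abs_self _).trans ?_
          rw [abs_mul]
          exact mul_le_mul (abs_cross_le hv hr.symm.le i) (abs_cross_le' (h1 m) (hβ m) i)
            (abs_nonneg _) (by positivity)
      _ = _ := by simp
  -- the dissipation term
  have hD : ∀ m, ∑ i, ∑ j, Q i j * ((q m j + c m j) * p1 m i
      + (∑ k, B k * p1 m k) * p2 m i j) ≥ ∑ j, q m j ^ 2 - 2 * ((K * r) * (K * s)) := by
    intro m
    have e1 : ∑ i, ∑ j, Q i j * ((q m j + c m j) * p1 m i + (∑ k, B k * p1 m k) * p2 m i j) =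
        ∑ j, q m j ^ 2 + ∑ j, c m j * q m j + (∑ k, B k * p1 m k) * ∑ j, ∑ i, Q i j * p2 m i j := by
      simp only [hq, hc, Fin.sum_univ_three]
      ring
    have e3 : |∑ j, c m j * q m j| ≤ (K * r) * (K * s) := by
      calc |∑ j, c m j * q m j| ≤ ∑ j, |c m j * q m j| := Finset.abs_sum_le_sum_abs _ _
        _ ≤ ∑ j, (K * r) * |q m j| := by
            refine Finset.sum_le_sum fun j _ => ?_
            rw [abs_mul]
            exact mul_le_mul_of_nonneg_right (hcs m j) (abs_nonneg _)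
        _ = (K * r) * ∑ j, |q m j| := by rw [Finset.mul_sum]
        _ ≤ _ := mul_le_mul_of_nonneg_left (hqs m) (by positivity)
    have e4 : |∑ j, ∑ i, Q i j * p2 m i j| ≤ K * s := by
      rw [hs, Finset.mul_sum]
      refine (Finset.abs_sum_le_sum_abs _ _).trans (Finset.sum_le_sum fun j _ => ?_)
      rw [Finset.mul_sum]
      refine (Finset.abs_sum_le_sum_abs _ _).trans (Finset.sum_le_sum fun i _ => ?_)
      rw [abs_mul, mul_comm]
      exact mul_le_mul_of_nonneg_right (h2 m i j) (abs_nonneg _)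
    have e5 : |(∑ k, B k * p1 m k) * ∑ j, ∑ i, Q i j * p2 m i j| ≤ (K * r) * (K * s) := by
      rw [abs_mul]
      exact mul_le_mul (hbs m) e4 (abs_nonneg _) (by positivity)
    rw [e1]
    have := (abs_le.1 e3).1
    have := (abs_le.1 e5).1
    linarith
  -- nondegeneracy
  have hN : g * ∑ j, ∑ i, Q i j ^ 2 ≤ ∑ m, ∑ j, q m j ^ 2 := by
    rw [Finset.mul_sum, Finset.sum_comm]
    exact Finset.sum_le_sum fun j _ => hn fun i => Q i j
  have hsQ : s ^ 2 ≤ 9 * ∑ j, ∑ i, Q i j ^ 2 := by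
    have a1 : s ^ 2 ≤ 3 * ∑ j, (∑ i, |Q i j|) ^ 2 := by
      have := sq_sum_le_card_mul_sum_sq (s := (Finset.univ : Finset (Fin 3)))
        (f := fun j => ∑ i, |Q i j|)
      rw [hs]
      simpa using this
    have a2 : ∀ j, (∑ i, |Q i j|) ^ 2 ≤ 3 * ∑ i, Q i j ^ 2 := by
      intro j
      have := sq_sum_le_card_mul_sum_sq (s := (Finset.univ : Finset (Fin 3)))
        (f := fun i => |Q i j|)
      simpa [sq_abs] using this
    calc s ^ 2 ≤ 3 * ∑ j, (∑ i, |Q i j|) ^ 2 := a1
      _ ≤ 3 * ∑ j, 3 * ∑ i, Q i j ^ 2 := by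
          refine mul_le_mul_of_nonneg_left (Finset.sum_le_sum fun j _ => a2 j) (by norm_num)
      _ = _ := by rw [← Finset.mul_sum]; ring
  have hrB : r ^ 2 ≤ 3 * ∑ i, B i ^ 2 := by
    have := sq_sum_le_card_mul_sum_sq (s := (Finset.univ : Finset (Fin 3)))
      (f := fun i => |B i|)
    rw [hr]
    simpa [sq_abs] using this
  -- conclusion
  have hsum : ∑ m, 2 * (dot (crossProduct v B)
        (crossProduct (fun j => q m j + c m j) (p1 m))
      - ε * ∑ i, ∑ j, Q i j * ((q m j + c m j) * p1 m i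
          + (∑ k, B k * p1 m k) * p2 m i j)) ≤
      ∑ m, 2 * (3 * ((ε * r) * (K * (K * s + 3 * (K * r))))
        - ε * (∑ j, q m j ^ 2 - 2 * ((K * r) * (K * s)))) := by
    refine Finset.sum_le_sum fun m _ => ?_
    have a1 := hd m
    have a2 := mul_le_mul_of_nonneg_left (hD m) hε
    linarith
  refine hsum.trans ?_
  have e6 : ∑ m, 2 * (3 * ((ε * r) * (K * (K * s + 3 * (K * r))))
        - ε * (∑ j, q m j ^ 2 - 2 * ((K * r) * (K * s)))) =
      ε * (30 * K ^ 2 * r * s + 54 * K ^ 2 * r ^ 2 - 2 * ∑ m, ∑ j, q m j ^ 2) := by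
    simp only [Fin.sum_univ_three]
    ring
  rw [e6, mul_right_comm, mul_comm _ ε, mul_assoc ε]
  refine mul_le_mul_of_nonneg_left ?_ hε
  have e7 : 30 * K ^ 2 * r * s ≤ 2 * g / 9 * s ^ 2 + 8100 / 8 * K ^ 4 / g * r ^ 2 := by
    have e8 : 0 ≤ (2 * g / 9) * (s - (135 / (2 * g)) * K ^ 2 * r) ^ 2 := by positivity
    have e9 : (2 * g / 9) * (s - (135 / (2 * g)) * K ^ 2 * r) ^ 2 =
        2 * g / 9 * s ^ 2 - 30 * K ^ 2 * r * s + 8100 / 8 * K ^ 4 / g * r ^ 2 := by
      field_simp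
      ring
    linarith
  have e10 : 2 * g / 9 * s ^ 2 ≤ 2 * ∑ m, ∑ j, q m j ^ 2 := by
    have := mul_le_mul_of_nonneg_left hsQ hg.le
    nlinarith
  have e11 : (8100 / 8 * K ^ 4 / g + 54 * K ^ 2) * r ^ 2 ≤
      (8100 / 8 * K ^ 4 / g + 54 * K ^ 2) * (3 * ∑ i, B i ^ 2) :=
    mul_le_mul_of_nonneg_left hrB (by positivity)
  have hSB : 0 ≤ ∑ i, B i ^ 2 := Finset.sum_nonneg fun _ _ => sq_nonneg _
  have e12 : 0 ≤ K ^ 4 / g * ∑ i, B i ^ 2 := by positivity
  have e13 : (8100 / 8 * K ^ 4 / g + 54 * K ^ 2) * (3 * ∑ i, B i ^ 2) =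
      (6075 / 2) * (K ^ 4 / g * ∑ i, B i ^ 2) + 162 * K ^ 2 * ∑ i, B i ^ 2 := by ring
  have e14 : (162 * K ^ 2 + 3038 * K ^ 4 / g) * ∑ i, B i ^ 2 =
      3038 * (K ^ 4 / g * ∑ i, B i ^ 2) + 162 * K ^ 2 * ∑ i, B i ^ 2 := by ring
  rw [e14]
  rw [e13] at e11
  have e15 : (8100 / 8 * K ^ 4 / g + 54 * K ^ 2) * r ^ 2 =
      8100 / 8 * K ^ 4 / g * r ^ 2 + 54 * K ^ 2 * r ^ 2 := by ring
  rw [e15] at e11
  linarith

end pointwise

section integrated

theorem memLp_bdd_mul {f c : V → ℝ} {C : ℝ} (hf : MemLp f 2 (volume.restrict cube))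
    (hc : AEStronglyMeasurable c (volume.restrict cube)) (hC : ∀ x, |c x| ≤ C) :
    MemLp (fun x => c x * f x) 2 (volume.restrict cube) := by
  refine MemLp.of_le_mul (c := C) hf (hc.mul hf.1) (ae_of_all _ fun x => ?_)
  rw [norm_mul, Real.norm_eq_abs]
  exact mul_le_mul_of_nonneg_right (hC x) (norm_nonneg _)

theorem memLp_mul_bdd {f c : V → ℝ} {C : ℝ} (hf : MemLp f 2 (volume.restrict cube))
    (hc : AEStronglyMeasurable c (volume.restrict cube)) (hC : ∀ x, |c x| ≤ C) :
    MemLp (fun x => f x * c x) 2 (volume.restrict cube) := by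
  simpa only [mul_comm] using memLp_bdd_mul hf hc hC

theorem int_mul {f g : V → ℝ} (hf : MemLp f 2 (volume.restrict cube))
    (hg : MemLp g 2 (volume.restrict cube)) :
    Integrable (fun x => f x * g x) (volume.restrict cube) := hf.integrable_mul hg

theorem memLp_sum {f : Fin 3 → V → ℝ} (hf : ∀ i, MemLp (f i) 2 (volume.restrict cube)) :
    MemLp (fun x => ∑ i, f i x) 2 (volume.restrict cube) :=
  memLp_finsetSum _ fun i _ => hf i

theorem memLp_cross {v B : V → V} (C : ℝ)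
    (hv : ∀ i, AEStronglyMeasurable (fun x => v x i) (volume.restrict cube))
    (hC : ∀ x i, |v x i| ≤ C) (hB : ∀ i, MemLp (fun x => B x i) 2 (volume.restrict cube))
    (k : Fin 3) : MemLp (fun x => (crossProduct (v x) (B x)) k) 2 (volume.restrict cube) := by
  have h : ∀ i j, MemLp (fun x => v x i * B x j - v x j * B x i) 2 (volume.restrict cube) :=
    fun i j => (memLp_bdd_mul (hB j) (hv i) fun x => hC x i).sub
      (memLp_bdd_mul (hB i) (hv j) fun x => hC x j)
  simp_rw [cross_apply]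
  fin_cases k
  · exact h 1 2
  · exact h 2 0
  · exact h 0 1

theorem memLp_cross' {v B : V → V} (C : ℝ)
    (hB : ∀ i, AEStronglyMeasurable (fun x => B x i) (volume.restrict cube))
    (hC : ∀ x i, |B x i| ≤ C) (hv : ∀ i, MemLp (fun x => v x i) 2 (volume.restrict cube))
    (k : Fin 3) : MemLp (fun x => (crossProduct (v x) (B x)) k) 2 (volume.restrict cube) := by
  have h := (memLp_cross (v := B) (B := v) C hB hC hv k).neg
  have e : (fun x => (crossProduct (v x) (B x)) k) = -fun x => (crossProduct (B x) (v x)) k := by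
    funext x
    rw [← cross_anticomm]
    rfl
  rw [e]
  exact h

/-- the differential inequality for the sum of the energies -/
theorem energy_ineq {K g ε : ℝ} (hg : 0 < g) (hε : 0 ≤ ε) {v B : V → V}
    {Q : Fin 3 → Fin 3 → V → ℝ} {p1 : Fin 3 → V → V} {p2 : Fin 3 → Fin 3 → Fin 3 → V → ℝ}
    (hB : ∀ i, MemLp (fun x => B x i) 2 (volume.restrict cube))
    (hQ : ∀ i j, MemLp (Q i j) 2 (volume.restrict cube))
    (hvm : ∀ i, AEStronglyMeasurable (fun x => v x i) (volume.restrict cube))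
    (hv : ∀ x i, |v x i| ≤ ε)
    (h1c : ∀ m i, Continuous fun x => p1 m x i) (h2c : ∀ m i j, Continuous (p2 m i j))
    (h1 : ∀ m x i, |p1 m x i| ≤ K) (h2 : ∀ m i j x, |p2 m i j x| ≤ K)
    (hn : ∀ x (b : V), g * ∑ i, b i ^ 2 ≤ ∑ m, (∑ i, b i * p1 m x i) ^ 2) :
    ∑ m, 2 * ((∫ x in cube, dot (crossProduct (v x) (B x))
        (crossProduct (fun j => ∑ i, (Q i j x * p1 m x i + B x i * p2 m i j x)) (p1 m x)))
      - ε * ∫ x in cube, ∑ i, ∑ j, Q i j x *
          ((∑ k, (Q k j x * p1 m x k + B x k * p2 m k j x)) * p1 m x i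
          + (∑ k, B x k * p1 m x k) * p2 m i j x)) ≤
      (162 * K ^ 2 + 3038 * K ^ 4 / g) * ε * ∫ x in cube, ∑ i, B x i ^ 2 := by
  have m1 : ∀ m i, AEStronglyMeasurable (fun x => p1 m x i) (volume.restrict cube) :=
    fun m i => (h1c m i).aestronglyMeasurable
  have m2 : ∀ m i j, AEStronglyMeasurable (p2 m i j) (volume.restrict cube) :=
    fun m i j => (h2c m i j).aestronglyMeasurable
  have lβ : ∀ m j, MemLp (fun x => ∑ i, (Q i j x * p1 m x i + B x i * p2 m i j x)) 2
      (volume.restrict cube) := fun m j => memLp_sum fun i =>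
    (memLp_mul_bdd (hQ i j) (m1 m i) fun x => h1 m x i).add
      (memLp_mul_bdd (hB i) (m2 m i j) (h2 m i j))
  have lb : ∀ m, MemLp (fun x => ∑ k, B x k * p1 m x k) 2 (volume.restrict cube) := fun m =>
    memLp_sum fun k => memLp_mul_bdd (hB k) (m1 m k) fun x => h1 m x k
  have i1 : ∀ m, Integrable (fun x => dot (crossProduct (v x) (B x))
      (crossProduct (fun j => ∑ i, (Q i j x * p1 m x i + B x i * p2 m i j x)) (p1 m x)))
      (volume.restrict cube) := fun m =>
    integrable_finsetSum _ fun k _ => int_mul (memLp_cross ε hvm hv hB k)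
      (memLp_cross' K (m1 m) (h1 m) (lβ m) k)
  have i2 : ∀ m, Integrable (fun x => ∑ i, ∑ j, Q i j x *
          ((∑ k, (Q k j x * p1 m x k + B x k * p2 m k j x)) * p1 m x i
          + (∑ k, B x k * p1 m x k) * p2 m i j x)) (volume.restrict cube) := fun m =>
    integrable_finsetSum _ fun i _ => integrable_finsetSum _ fun j _ => int_mul (hQ i j)
      ((memLp_mul_bdd (lβ m j) (m1 m i) fun x => h1 m x i).add
        (memLp_mul_bdd (lb m) (m2 m i j) (h2 m i j)))
  have i3 : Integrable (fun x => ∑ i, B x i ^ 2) (volume.restrict cube) := by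
    have : (fun x => ∑ i, B x i ^ 2) = fun x => ∑ i, B x i * B x i := by
      funext x; exact Finset.sum_congr rfl fun i _ => sq _
    rw [this]
    exact integrable_finsetSum _ fun i _ => int_mul (hB i) (hB i)
  have e1 : ∀ m, 2 * ((∫ x in cube, dot (crossProduct (v x) (B x))
        (crossProduct (fun j => ∑ i, (Q i j x * p1 m x i + B x i * p2 m i j x)) (p1 m x)))
      - ε * ∫ x in cube, ∑ i, ∑ j, Q i j x *
          ((∑ k, (Q k j x * p1 m x k + B x k * p2 m k j x)) * p1 m x i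
          + (∑ k, B x k * p1 m x k) * p2 m i j x)) =
      ∫ x in cube, 2 * (dot (crossProduct (v x) (B x))
        (crossProduct (fun j => ∑ i, (Q i j x * p1 m x i + B x i * p2 m i j x)) (p1 m x))
      - ε * ∑ i, ∑ j, Q i j x *
          ((∑ k, (Q k j x * p1 m x k + B x k * p2 m k j x)) * p1 m x i
          + (∑ k, B x k * p1 m x k) * p2 m i j x)) := by
    intro m
    rw [integral_const_mul, integral_sub (i1 m) ((i2 m).const_mul ε), integral_const_mul]
  have i4 : ∀ m, Integrable (fun x => 2 * (dot (crossProduct (v x) (B x))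
        (crossProduct (fun j => ∑ i, (Q i j x * p1 m x i + B x i * p2 m i j x)) (p1 m x))
      - ε * ∑ i, ∑ j, Q i j x *
          ((∑ k, (Q k j x * p1 m x k + B x k * p2 m k j x)) * p1 m x i
          + (∑ k, B x k * p1 m x k) * p2 m i j x))) (volume.restrict cube) := fun m =>
    (((i1 m).sub ((i2 m).const_mul ε)).const_mul 2)
  simp_rw [e1]
  rw [← integral_finsetSum _ fun m _ => i4 m, ← integral_const_mul]
  refine integral_mono (integrable_finsetSum _ fun m _ => i4 m) (i3.const_mul _) fun x => ?_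
  exact pt_ineq hg hε (v x) (B x) (fun i j => Q i j x) (fun m => p1 m x)
    (fun m i j => p2 m i j x) (hv x) (fun m i => h1 m x i) (fun m i j => h2 m i j x) (hn x)

/-- the sum of the energies controls the square integral -/
theorem sq_le_energy {K g : ℝ} (hg : 0 < g) {B : V → V} {p1 : Fin 3 → V → V}
    (hB : ∀ i, MemLp (fun x => B x i) 2 (volume.restrict cube))
    (h1c : ∀ m i, Continuous fun x => p1 m x i) (h1 : ∀ m x i, |p1 m x i| ≤ K)
    (hn : ∀ x (b : V), g * ∑ i, b i ^ 2 ≤ ∑ m, (∑ i, b i * p1 m x i) ^ 2) :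
    ∫ x in cube, ∑ i, B x i ^ 2 ≤
      g⁻¹ * ∑ m, ∫ x in cube, (∑ i, B x i * p1 m x i) ^ 2 := by
  have m1 : ∀ m i, AEStronglyMeasurable (fun x => p1 m x i) (volume.restrict cube) :=
    fun m i => (h1c m i).aestronglyMeasurable
  have lb : ∀ m, MemLp (fun x => ∑ k, B x k * p1 m x k) 2 (volume.restrict cube) := fun m =>
    memLp_sum fun k => memLp_mul_bdd (hB k) (m1 m k) fun x => h1 m x k
  have i3 : Integrable (fun x => ∑ i, B x i ^ 2) (volume.restrict cube) := by
    have : (fun x => ∑ i, B x i ^ 2) = fun x => ∑ i, B x i * B x i := by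
      funext x; exact Finset.sum_congr rfl fun i _ => sq _
    rw [this]
    exact integrable_finsetSum _ fun i _ => int_mul (hB i) (hB i)
  have i4 : ∀ m, Integrable (fun x => (∑ i, B x i * p1 m x i) ^ 2) (volume.restrict cube) := by
    intro m
    have : (fun x => (∑ i, B x i * p1 m x i) ^ 2) =
        fun x => (∑ i, B x i * p1 m x i) * ∑ i, B x i * p1 m x i := by
      funext x; exact sq _
    rw [this]
    exact int_mul (lb m) (lb m)
  rw [← integral_finsetSum _ fun m _ => i4 m, ← integral_const_mul]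
  refine integral_mono i3 ((integrable_finsetSum _ fun m _ => i4 m).const_mul _) fun x => ?_
  have h := hn x (B x)
  show ∑ i, B x i ^ 2 ≤ g⁻¹ * ∑ m, (∑ i, B x i * p1 m x i) ^ 2
  rw [inv_mul_eq_div, le_div_iff₀ hg, mul_comm]
  exact h

end integrated

end Pool.Agent.N262.FX
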